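import Pool.Agent.H49.PC.Rel

/-!
PC: the contradiction.  `EC τ k ε` gives `EC τ (2 k) (τ Lt τ k)`, hence `ε = - τ Lt τ k` (compare `8 k` with `k 2 ^ 3`), all three
relations `(R)` for `k, 2 k, 4 k` have the value `- 1`, hence `Lt τ ((2 p) ^ 3 + k q ^ 3) = Lt τ (p ^ 3 + k q ^ 3)` and so
`Lt τ (p ^ 3 + k q ^ 3) = ε λ(q)` for small `p` too.  But `(- 9 k) ^ 3 + k = - k (1 + 27 k) (- 1 + 27 k)`.
-/

namespace Pool.Agent.H49.PC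

open Pool.Agent.H12.PAR (lam lam_mul lam_cases lam_sq)

theorem Lt_two {τ : ℤ} : Lt τ 2 = -1 := by
  rw [Lt_nonneg (by norm_num), lam_two]

theorem Lt_two_mul {τ : ℤ} (hτ : τ * τ = 1) {x : ℤ} (hx : x ≠ 0) : Lt τ (2 * x) = -Lt τ x := by
  rw [Lt_mul hτ two_ne_zero hx, Lt_two]
  ring

/-- step 1 -/
theorem ec2 {τ k ε : ℤ} (hτ : τ * τ = 1) (hk : k ≠ 0) (h : EC τ k ε) :
    EC τ (2 * k) (τ * Lt τ k) := by
  intro d hd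
  obtain ⟨m0, h0⟩ := h d hd
  refine ⟨max m0 (|k * d ^ 3| + |2 * k * d ^ 3| + 1), fun m hm => ?_⟩
  have hm1 : m0 ≤ |m| := le_trans (le_max_left _ _) hm
  have hm2 : |k * d ^ 3| + |2 * k * d ^ 3| + 1 ≤ |m| := le_trans (le_max_right _ _) hm
  have a1 := abs_nonneg (k * d ^ 3)
  have a2 := abs_nonneg (2 * k * d ^ 3)
  have n1 : m ^ 3 + k * d ^ 3 ≠ 0 := cube_ne (by linarith)
  have n2 : m ^ 3 + 2 * k * d ^ 3 ≠ 0 := cube_ne (by linarith)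
  have hm0 : m ≠ 0 := by
    intro h'
    rw [h', abs_zero] at hm2
    linarith
  have r := rel hτ hk h m d hm0 (by linarith) n1 n2
  rw [h0 m hm1] at r
  have hε := eps_sq hτ h
  calc Lt τ (m ^ 3 + 2 * k * d ^ 3) =
      (ε * ε) * (lam d * lam d) * Lt τ (m ^ 3 + 2 * k * d ^ 3) := by rw [hε, lam_sq, one_mul, one_mul]
    _ = ε * lam d * (ε * lam d * Lt τ (m ^ 3 + 2 * k * d ^ 3)) := by ring
    _ = ε * lam d * (ε * τ * Lt τ k) := by rw [r]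
    _ = (ε * ε) * (τ * Lt τ k * lam d) := by ring
    _ = τ * Lt τ k * lam d := by rw [hε, one_mul]

/-- step 2 -/
theorem eps_eq {τ k ε : ℤ} (hτ : τ * τ = 1) (hk : k ≠ 0) (h : EC τ k ε) : ε = -(τ * Lt τ k) := by
  have k2 : 2 * k ≠ 0 := mul_ne_zero two_ne_zero hk
  have k4 : 2 * (2 * k) ≠ 0 := mul_ne_zero two_ne_zero k2
  have e1 := ec2 hτ hk h
  have e2 := ec2 hτ k2 e1
  have e3 := ec2 hτ k4 e2
  obtain ⟨m1, h1⟩ := h 2 (by norm_num)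
  obtain ⟨m3, h3⟩ := e3 1 le_rfl
  obtain ⟨m, hm⟩ : ∃ m : ℤ, m = max m1 m3 := ⟨_, rfl⟩
  have g1 := h1 m (le_trans (by rw [hm]; exact le_max_left _ _) (le_abs_self m))
  have g3 := h3 m (le_trans (by rw [hm]; exact le_max_right _ _) (le_abs_self m))
  have e : m ^ 3 + 2 * (2 * (2 * k)) * 1 ^ 3 = m ^ 3 + k * 2 ^ 3 := by ring
  rw [e, g1, lam_two, lam_one, Lt_two_mul hτ k2, Lt_two_mul hτ hk] at g3
  linarith

/-- the three relations multiplied -/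
theorem rel8 {τ k ε : ℤ} (hτ : τ * τ = 1) (hk : k ≠ 0) (h : EC τ k ε) (p q : ℤ) (hp : p ≠ 0)
    (hq : q ≠ 0) (h1 : p ^ 3 + k * q ^ 3 ≠ 0) (h2 : p ^ 3 + 2 * k * q ^ 3 ≠ 0)
    (h4 : p ^ 3 + 4 * k * q ^ 3 ≠ 0) (h8 : p ^ 3 + 8 * k * q ^ 3 ≠ 0) :
    Lt τ (p ^ 3 + k * q ^ 3) * Lt τ (p ^ 3 + 8 * k * q ^ 3) = -1 := by
  have k2 : 2 * k ≠ 0 := mul_ne_zero two_ne_zero hk
  have k4 : 2 * (2 * k) ≠ 0 := mul_ne_zero two_ne_zero k2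
  have f1 := ec2 hτ hk h
  have f2 := ec2 hτ k2 f1
  have e4 : 2 * (2 * k) = 4 * k := by ring
  have e8 : 2 * (2 * (2 * k)) = 8 * k := by ring
  have r1 := rel hτ hk h p q hp hq h1 h2
  have r2 := rel hτ k2 f1 p q hp hq h2 (by rwa [e4])
  have r4 := rel hτ k4 f2 p q hp hq (by rwa [e4]) (by rwa [e8])
  rw [eps_eq hτ hk h] at r1
  rw [e4, Lt_two_mul hτ hk] at r2
  rw [e8, e4, ← e4, Lt_two_mul hτ k2, Lt_two_mul hτ hk, e4] at r4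
  have s0 := Lt_sq hτ k
  have s2 := Lt_sq hτ (p ^ 3 + 2 * k * q ^ 3)
  have s4 := Lt_sq hτ (p ^ 3 + 4 * k * q ^ 3)
  have c1 : -(τ * Lt τ k) * τ * Lt τ k = -1 := by
    calc -(τ * Lt τ k) * τ * Lt τ k = -((τ * τ) * (Lt τ k * Lt τ k)) := by ring
      _ = -1 := by rw [hτ, s0]; norm_num
  have c2 : τ * Lt τ k * τ * -Lt τ k = -1 := by
    calc τ * Lt τ k * τ * -Lt τ k = -((τ * τ) * (Lt τ k * Lt τ k)) := by ring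
      _ = -1 := by rw [hτ, s0]; norm_num
  have c4 : τ * -Lt τ k * τ * -(-Lt τ k) = -1 := by
    calc τ * -Lt τ k * τ * -(-Lt τ k) = -((τ * τ) * (Lt τ k * Lt τ k)) := by ring
      _ = -1 := by rw [hτ, s0]; norm_num
  rw [c1] at r1
  rw [c2] at r2
  rw [c4] at r4
  calc Lt τ (p ^ 3 + k * q ^ 3) * Lt τ (p ^ 3 + 8 * k * q ^ 3) =
      (Lt τ (p ^ 3 + 2 * k * q ^ 3) * Lt τ (p ^ 3 + 2 * k * q ^ 3)) *
        (Lt τ (p ^ 3 + 4 * k * q ^ 3) * Lt τ (p ^ 3 + 4 * k * q ^ 3)) *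
        (Lt τ (p ^ 3 + k * q ^ 3) * Lt τ (p ^ 3 + 8 * k * q ^ 3)) := by rw [s2, s4]; ring
    _ = (Lt τ (p ^ 3 + k * q ^ 3) * Lt τ (p ^ 3 + 2 * k * q ^ 3)) *
        (Lt τ (p ^ 3 + 2 * k * q ^ 3) * Lt τ (p ^ 3 + 4 * k * q ^ 3)) *
        (Lt τ (p ^ 3 + 4 * k * q ^ 3) * Lt τ (p ^ 3 + 8 * k * q ^ 3)) := by ring
    _ = -1 := by rw [r1, r2, r4]; norm_num

/-- doubling -/
theorem dbl {τ k ε : ℤ} (hτ : τ * τ = 1) (hk : k ≠ 0) (h : EC τ k ε) (p q : ℤ) (hp : p ≠ 0)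
    (hq : q ≠ 0) (h0 : p ^ 3 + k * q ^ 3 ≠ 0) (h1 : (2 * p) ^ 3 + k * q ^ 3 ≠ 0)
    (h2 : (2 * p) ^ 3 + 2 * k * q ^ 3 ≠ 0) (h4 : (2 * p) ^ 3 + 4 * k * q ^ 3 ≠ 0) :
    Lt τ ((2 * p) ^ 3 + k * q ^ 3) = Lt τ (p ^ 3 + k * q ^ 3) := by
  have e : (2 * p) ^ 3 + 8 * k * q ^ 3 = 2 * (2 * (2 * (p ^ 3 + k * q ^ 3))) := by ring
  have g2 : 2 * (p ^ 3 + k * q ^ 3) ≠ 0 := mul_ne_zero two_ne_zero h0
  have g4 : 2 * (2 * (p ^ 3 + k * q ^ 3)) ≠ 0 := mul_ne_zero two_ne_zero g2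
  have h8 : (2 * p) ^ 3 + 8 * k * q ^ 3 ≠ 0 := by
    rw [e]
    exact mul_ne_zero two_ne_zero g4
  have r := rel8 hτ hk h (2 * p) q (mul_ne_zero two_ne_zero hp) hq h1 h2 h4 h8
  rw [e, Lt_two_mul hτ g4, Lt_two_mul hτ g2, Lt_two_mul hτ h0] at r
  have s := Lt_sq hτ (p ^ 3 + k * q ^ 3)
  calc Lt τ ((2 * p) ^ 3 + k * q ^ 3) =
      Lt τ ((2 * p) ^ 3 + k * q ^ 3) * (Lt τ (p ^ 3 + k * q ^ 3) * Lt τ (p ^ 3 + k * q ^ 3)) := by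
        rw [s, mul_one]
    _ = -(Lt τ ((2 * p) ^ 3 + k * q ^ 3) * - - -Lt τ (p ^ 3 + k * q ^ 3)) *
          Lt τ (p ^ 3 + k * q ^ 3) := by ring
    _ = Lt τ (p ^ 3 + k * q ^ 3) := by rw [r]; ring

/-- small values too -/
theorem small {τ k ε : ℤ} (hτ : τ * τ = 1) (hk : k ≠ 0) (h : EC τ k ε) (p q : ℤ) (hp : p ≠ 0)
    (hq : 1 ≤ q)
    (hn : ∀ i : ℕ, ∀ j : ℤ, 1 ≤ j → j ≤ 4 → (2 ^ i * p) ^ 3 + j * k * q ^ 3 ≠ 0) :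
    Lt τ (p ^ 3 + k * q ^ 3) = ε * lam q := by
  have hq0 : q ≠ 0 := by linarith
  have step : ∀ i : ℕ, Lt τ ((2 ^ i * p) ^ 3 + k * q ^ 3) = Lt τ (p ^ 3 + k * q ^ 3) := by
    intro i
    induction i with
    | zero => rw [pow_zero, one_mul]
    | succ i ih =>
      have e : (2 : ℤ) ^ (i + 1) * p = 2 * (2 ^ i * p) := by ring
      have n1 := hn (i + 1) 1 le_rfl (by norm_num)
      have n2 := hn (i + 1) 2 (by norm_num) (by norm_num)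
      have n4 := hn (i + 1) 4 (by norm_num) le_rfl
      have n0 := hn i 1 le_rfl (by norm_num)
      rw [one_mul] at n1 n0
      rw [e] at n1 n2 n4 ⊢
      rw [dbl hτ hk h (2 ^ i * p) q (mul_ne_zero (pow_ne_zero i two_ne_zero) hp) hq0 n0 n1 n2 n4, ih]
  obtain ⟨m0, h0⟩ := h q hq
  obtain ⟨i, hi⟩ : ∃ i : ℕ, m0 ≤ |(2 : ℤ) ^ i * p| := by
    refine ⟨m0.toNat, ?_⟩
    have h1 : (m0.toNat : ℤ) < (2 : ℤ) ^ m0.toNat := by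
      exact_mod_cast Nat.lt_two_pow_self
    have h2 : m0 ≤ (m0.toNat : ℤ) := Int.self_le_toNat m0
    have h3 : 1 ≤ |p| := Int.one_le_abs hp
    have h4 : (0 : ℤ) ≤ 2 ^ m0.toNat := by positivity
    rw [abs_mul, abs_of_nonneg h4]
    nlinarith
  rw [← step i]
  exact h0 _ hi

theorem noEC {τ k ε : ℤ} (hτ : τ * τ = 1) (hk : k ≠ 0) : ¬ EC τ k ε := by
  intro h
  have c3 : ∀ (s : ℤ), (s = 1 ∨ s = -1) → ∀ i : ℕ, ∀ j : ℤ, 1 ≤ j → j ≤ 4 →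
      ((2 : ℤ) ^ i * s) ^ 3 + j * k * 3 ^ 3 ≠ 0 := by
    intro s hs i j _ _ h0
    have p3 : Prime (3 : ℤ) := Int.prime_three
    have d1 : (3 : ℤ) ∣ ((2 : ℤ) ^ i * s) ^ 3 := ⟨-(9 * j * k), by linarith⟩
    have d2 := p3.dvd_of_dvd_pow d1
    rcases p3.dvd_or_dvd d2 with d3 | d3
    · have d4 := p3.dvd_of_dvd_pow d3
      omega
    · rcases hs with hs | hs <;> rw [hs] at d3 <;> omega
  have c9 : ∀ i : ℕ, ∀ j : ℤ, 1 ≤ j → j ≤ 4 → ((2 : ℤ) ^ i * (-9 * k)) ^ 3 + j * k * 1 ^ 3 ≠ 0 := by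
    intro i j hj1 hj h0
    have e : ((2 : ℤ) ^ i * (-9 * k)) ^ 3 + j * k * 1 ^ 3 = k * (j - 729 * ((2 ^ i) ^ 3 * k ^ 2)) := by
      ring
    rw [e] at h0
    rcases mul_eq_zero.1 h0 with h' | h'
    · exact hk h'
    · have h1 : 1 ≤ k ^ 2 := Int.one_le_abs (pow_ne_zero 2 hk) |>.trans_eq (abs_of_nonneg (sq_nonneg k))
      have h2 : (1 : ℤ) ≤ (2 ^ i) ^ 3 := one_le_pow₀ (one_le_pow₀ (by norm_num))
      have h3 : 1 * 1 ≤ (2 ^ i) ^ 3 * k ^ 2 := mul_le_mul h2 h1 (by norm_num) (by positivity)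
      linarith
  have a1 := small hτ hk h 1 3 one_ne_zero (by norm_num) (c3 1 (Or.inl rfl))
  have a2 := small hτ hk h (-1) 3 (by norm_num) (by norm_num) (c3 (-1) (Or.inr rfl))
  have a3 := small hτ hk h (-9 * k) 1 (mul_ne_zero (by norm_num) hk) le_rfl c9
  have n1 : (1 : ℤ) ^ 3 + k * 3 ^ 3 ≠ 0 := by omega
  have n2 : (-1 : ℤ) ^ 3 + k * 3 ^ 3 ≠ 0 := by omega
  have e : (-9 * k) ^ 3 + k * 1 ^ 3 = -(k * ((1 ^ 3 + k * 3 ^ 3) * ((-1) ^ 3 + k * 3 ^ 3))) := by ring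
  rw [e, Lt_neg hτ (mul_ne_zero hk (mul_ne_zero n1 n2)), Lt_mul hτ hk (mul_ne_zero n1 n2),
    Lt_mul hτ n1 n2, a1, a2, lam_three, lam_one] at a3
  have hε := eps_sq hτ h
  have e1 : τ * (Lt τ k * (ε * -1 * (ε * -1))) = τ * Lt τ k := by
    calc τ * (Lt τ k * (ε * -1 * (ε * -1))) = (ε * ε) * (τ * Lt τ k) := by ring
      _ = τ * Lt τ k := by rw [hε, one_mul]
  rw [e1, eps_eq hτ hk h] at a3
  have e2 : τ * Lt τ k = 0 := by linarith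
  have e3 : (τ * Lt τ k) * (τ * Lt τ k) = 1 := by
    calc (τ * Lt τ k) * (τ * Lt τ k) = (τ * τ) * (Lt τ k * Lt τ k) := by ring
      _ = 1 := by rw [hτ, Lt_sq hτ, one_mul]
  rw [e2] at e3
  norm_num at e3

end Pool.Agent.H49.PC
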