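import Pool.Agent.H12.PAR.Fam

/-!
PC (MP_4d57ea_nt): both parities in every cube class.  The Liouville function with a sign.

`Lt τ x = τ ^ [x < 0] λ(|x|)` is completely multiplicative on the nonzero integers if `τ = ± 1`.
`EC τ k ε`: for every `d ≥ 1` and all `m` with `|m|` large `Lt τ (m ^ 3 + k d ^ 3) = ε λ(d)`.
-/

namespace Pool.Agent.H49.PC

open Pool.Agent.H12.PAR (lam lam_mul lam_cases lam_sq)

/-- the Liouville function with the sign `τ` at `-1` -/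
def Lt (τ x : ℤ) : ℤ := if x < 0 then τ * lam x else lam x

/-- eventually constant in all multiples -/
def EC (τ k ε : ℤ) : Prop :=
  ∀ d : ℤ, 1 ≤ d → ∃ m0 : ℤ, ∀ m : ℤ, m0 ≤ |m| → Lt τ (m ^ 3 + k * d ^ 3) = ε * lam d

theorem lam_neg (x : ℤ) : lam (-x) = lam x := by
  unfold lam
  rw [Int.natAbs_neg]

theorem lam_one : lam 1 = 1 := by
  unfold lam
  simp

theorem lam_prime {p : ℕ} (hp : p.Prime) : lam (p : ℤ) = -1 := by
  unfold lam
  rw [Int.natAbs_natCast, ArithmeticFunction.cardFactors_apply_prime hp, pow_one]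

theorem lam_two : lam 2 = -1 := lam_prime Nat.prime_two

theorem lam_three : lam 3 = -1 := lam_prime Nat.prime_three

theorem Lt_nonneg {τ x : ℤ} (hx : 0 ≤ x) : Lt τ x = lam x := by
  unfold Lt
  rw [if_neg (not_lt.2 hx)]

theorem Lt_sq {τ : ℤ} (hτ : τ * τ = 1) (x : ℤ) : Lt τ x * Lt τ x = 1 := by
  unfold Lt
  split_ifs
  · calc τ * lam x * (τ * lam x) = (τ * τ) * (lam x * lam x) := by ring
      _ = 1 := by rw [hτ, lam_sq, one_mul]
  · exact lam_sq x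

theorem Lt_neg {τ : ℤ} (hτ : τ * τ = 1) {x : ℤ} (hx : x ≠ 0) : Lt τ (-x) = τ * Lt τ x := by
  unfold Lt
  rcases lt_or_gt_of_ne hx with h | h
  · rw [if_neg (by omega), if_pos h, lam_neg, ← mul_assoc, hτ, one_mul]
  · rw [if_pos (by omega), if_neg (by omega), lam_neg]

theorem Lt_mul {τ : ℤ} (hτ : τ * τ = 1) {x y : ℤ} (hx : x ≠ 0) (hy : y ≠ 0) :
    Lt τ (x * y) = Lt τ x * Lt τ y := by
  unfold Lt
  rw [lam_mul hx hy]
  rcases lt_or_gt_of_ne hx with h | h <;> rcases lt_or_gt_of_ne hy with h' | h'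
  · rw [if_neg (not_lt.2 (mul_pos_of_neg_of_neg h h').le), if_pos h, if_pos h']
    calc lam x * lam y = (τ * τ) * (lam x * lam y) := by rw [hτ, one_mul]
      _ = τ * lam x * (τ * lam y) := by ring
  · rw [if_pos (mul_neg_of_neg_of_pos h h'), if_pos h, if_neg (not_lt.2 h'.le)]
    ring
  · rw [if_pos (mul_neg_of_pos_of_neg h h'), if_neg (not_lt.2 h.le), if_pos h']
    ring
  · rw [if_neg (not_lt.2 (mul_pos h h').le), if_neg (not_lt.2 h.le), if_neg (not_lt.2 h'.le)]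

theorem Lt_sq_mul {τ : ℤ} (hτ : τ * τ = 1) {x y : ℤ} (hx : x ≠ 0) (hy : y ≠ 0) :
    Lt τ (x * y ^ 2) = Lt τ x := by
  rw [Lt_mul hτ hx (pow_ne_zero 2 hy), pow_two, Lt_mul hτ hy hy, Lt_sq hτ, mul_one]

theorem Lt_cube {τ : ℤ} (hτ : τ * τ = 1) {x : ℤ} (hx : x ≠ 0) : Lt τ (x ^ 3) = Lt τ x := by
  have h : x ^ 3 = x * x ^ 2 := by ring
  rw [h, Lt_sq_mul hτ hx hx]

theorem eps_sq {τ k ε : ℤ} (hτ : τ * τ = 1) (h : EC τ k ε) : ε * ε = 1 := by
  obtain ⟨m0, h0⟩ := h 1 le_rfl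
  have h1 := h0 m0 (le_abs_self m0)
  rw [lam_one, mul_one] at h1
  rw [← h1]
  exact Lt_sq hτ _

/-- an injective sequence of integers is eventually large -/
theorem large {f : ℕ → ℤ} (hf : Function.Injective f) (M : ℤ) : ∀ᶠ i in Filter.atTop, M ≤ |f i| := by
  have h1 : ∀ᶠ x : ℤ in Filter.cofinite, M ≤ |x| := by
    rw [Filter.eventually_cofinite]
    refine (Set.finite_Icc (-M) M).subset ?_
    intro x hx
    have hx' : ¬ M ≤ |x| := hx
    rw [Set.mem_Icc]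
    rw [not_le, abs_lt] at hx'
    exact ⟨hx'.1.le, hx'.2.le⟩
  have h2 := hf.tendsto_cofinite.eventually h1
  rwa [Nat.cofinite_eq_atTop] at h2

/-- `x ^ 3 + K ≠ 0` for large `x` -/
theorem cube_ne {x K : ℤ} (h : |K| + 1 ≤ |x|) : x ^ 3 + K ≠ 0 := by
  intro h0
  have h1 : |x| ^ 3 = |K| := by
    rw [← abs_pow]
    have : x ^ 3 = -K := by linarith
    rw [this, abs_neg]
  have h2 : 0 ≤ |K| := abs_nonneg K
  have h3 : 1 ≤ |x| := by linarith
  have h4 : |x| ≤ |x| ^ 3 := le_self_pow₀ h3 (by norm_num)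
  linarith

end Pool.Agent.H49.PC
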