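import Pool.Agent.H49.PC.Boot

/-!
PC: both parities in every cube class.

For `k ≠ 0` there is an integer `n ≠ 0` such that for every `e ≥ 1` the sequence `λ(m ^ 3 + k (n e) ^ 3)`, `m = 1, 2, 3, ..`,
takes both values infinitely often.
-/

namespace Pool.Agent.H49.PC

open Pool.Agent.H12.PAR (lam lam_mul lam_cases lam_sq)

/-- the sequence with `K` is eventually equal to `δ` on the naturals -/
def Ev (K δ : ℤ) : Prop := ∃ m0 : ℕ, ∀ m : ℕ, m0 ≤ m → lam ((m : ℤ) ^ 3 + K) = δ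

theorem lam_cube_mul {e x : ℤ} (he : e ≠ 0) (hx : x ≠ 0) : lam (e ^ 3 * x) = lam e * lam x := by
  rw [lam_mul (pow_ne_zero 3 he) hx]
  have h : e ^ 3 = e * (e * e) := by ring
  rw [h, lam_mul he (mul_ne_zero he he), lam_mul he he, lam_sq, mul_one]

theorem cube_ne' {K : ℤ} {m : ℕ} (h : |K| + 1 ≤ (m : ℤ)) : (m : ℤ) ^ 3 + K ≠ 0 :=
  cube_ne (h.trans (le_abs_self _))

/-- multiples -/
theorem Ev_mul {K δ δ' e : ℤ} (he : 1 ≤ e) (h : Ev K δ) (h' : Ev (e ^ 3 * K) δ') : δ' = lam e * δ := by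
  obtain ⟨m0, h0⟩ := h
  obtain ⟨m1, h1⟩ := h'
  obtain ⟨m, hm⟩ : ∃ m : ℕ, m = m0 + m1 + |K|.toNat + 1 := ⟨_, rfl⟩
  have hK : |K| + 1 ≤ (m : ℤ) := by
    rw [hm]
    push_cast
    rw [Int.toNat_of_nonneg (abs_nonneg K)]
    linarith
  have he' : (e.toNat : ℤ) = e := Int.toNat_of_nonneg (by linarith)
  have h2 := h1 (e.toNat * m) (by
    have e1 : 1 ≤ e.toNat := by omega
    calc m1 ≤ m := by omega
      _ = 1 * m := (one_mul m).symm
      _ ≤ e.toNat * m := Nat.mul_le_mul_right m e1)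
  have e2 : ((e.toNat * m : ℕ) : ℤ) ^ 3 + e ^ 3 * K = e ^ 3 * ((m : ℤ) ^ 3 + K) := by
    push_cast
    rw [he']
    ring
  rw [e2, lam_cube_mul (by linarith) (cube_ne' hK), h0 m (by omega)] at h2
  exact h2.symm

/-- not all the sequences are eventually constant -/
theorem exists_not {k : ℤ} (hk : k ≠ 0) :
    ∃ n : ℤ, n ≠ 0 ∧ ∀ δ : ℤ, ¬ Ev (k * n ^ 3) δ := by
  by_contra hcon
  have hall : ∀ n : ℤ, n ≠ 0 → ∃ δ : ℤ, Ev (k * n ^ 3) δ := by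
    intro n hn
    by_contra h
    exact hcon ⟨n, hn, fun δ hδ => h ⟨δ, hδ⟩⟩
  obtain ⟨ε, hε⟩ := hall 1 one_ne_zero
  obtain ⟨η, hη⟩ := hall (-1) (by norm_num)
  -- values are signs
  have sgn : ∀ K δ : ℤ, Ev K δ → δ * δ = 1 := by
    intro K δ h
    obtain ⟨m0, h0⟩ := h
    rw [← h0 m0 le_rfl]
    exact lam_sq _
  have hε2 := sgn _ _ hε
  have hη2 := sgn _ _ hη
  have hτ : ε * η * (ε * η) = 1 := by
    calc ε * η * (ε * η) = (ε * ε) * (η * η) := by ring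
      _ = 1 := by rw [hε2, hη2, one_mul]
  refine noEC (τ := ε * η) (k := k) (ε := ε) hτ hk ?_
  intro d hd
  obtain ⟨δ1, h1⟩ := hall d (by linarith)
  obtain ⟨δ2, h2⟩ := hall (-d) (by linarith)
  have g1 : δ1 = lam d * ε := by
    refine Ev_mul hd hε ?_
    have e : d ^ 3 * (k * 1 ^ 3) = k * d ^ 3 := by ring
    rw [e]
    exact h1
  have g2 : δ2 = lam d * η := by
    refine Ev_mul hd hη ?_
    have e : d ^ 3 * (k * (-1) ^ 3) = k * (-d) ^ 3 := by ring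
    rw [e]
    exact h2
  obtain ⟨m1, h1⟩ := h1
  obtain ⟨m2, h2⟩ := h2
  refine ⟨(m1 : ℤ) + m2 + |k * d ^ 3| + 1, fun m hm => ?_⟩
  have hK0 := abs_nonneg (k * d ^ 3)
  have hK1 := le_abs_self (k * d ^ 3)
  have hK2 := neg_abs_le (k * d ^ 3)
  rcases le_or_gt 0 m with h0 | h0
  · rw [abs_of_nonneg h0] at hm
    have hpos : 0 ≤ m ^ 3 + k * d ^ 3 := by
      have h3 : m ≤ m ^ 3 := le_self_pow₀ (by linarith) (by norm_num)
      linarith
    have hm' : (m.toNat : ℤ) = m := Int.toNat_of_nonneg h0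
    have r := h1 m.toNat (by omega)
    rw [hm', g1] at r
    rw [Lt_nonneg hpos, r]
    ring
  · rw [abs_of_neg h0] at hm
    have hm' : ((-m).toNat : ℤ) = -m := Int.toNat_of_nonneg (by linarith)
    have h3 : -m ≤ (-m) ^ 3 := le_self_pow₀ (by linarith) (by norm_num)
    have e3 : (-m) ^ 3 = -m ^ 3 := by ring
    have hneg : m ^ 3 + k * d ^ 3 < 0 := by
      rw [e3] at h3
      linarith
    have r := h2 (-m).toNat (by omega)
    have e4 : (-m) ^ 3 + k * (-d) ^ 3 = -(m ^ 3 + k * d ^ 3) := by ring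
    rw [hm', g2, e4, lam_neg] at r
    unfold Lt
    rw [if_pos hneg, r]
    calc ε * η * (lam d * η) = (η * η) * (ε * lam d) := by ring
      _ = ε * lam d := by rw [hη2, one_mul]

/-- both values infinitely often, multiples too -/
theorem main (k : ℤ) (hk : k ≠ 0) : ∃ n : ℤ, n ≠ 0 ∧ ∀ e : ℕ, 1 ≤ e → ∀ δ : ℤ, δ = 1 ∨ δ = -1 →
    {m : ℕ | (m : ℤ) ^ 3 + k * (n * e) ^ 3 ≠ 0 ∧ lam ((m : ℤ) ^ 3 + k * (n * e) ^ 3) = δ}.Infinite := by
  obtain ⟨n, hn, h⟩ := exists_not hk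
  refine ⟨n, hn, fun e he => ?_⟩
  -- the case e = 1
  have base : ∀ δ : ℤ, δ = 1 ∨ δ = -1 →
      {m : ℕ | (m : ℤ) ^ 3 + k * n ^ 3 ≠ 0 ∧ lam ((m : ℤ) ^ 3 + k * n ^ 3) = δ}.Infinite := by
    intro δ hδ hfin
    obtain ⟨B, hB⟩ := hfin.bddAbove
    refine h (-δ) ⟨B + 1 + (|k * n ^ 3| + 1).toNat, fun m hm => ?_⟩
    have hK : |k * n ^ 3| + 1 ≤ (m : ℤ) := by
      have := Int.self_le_toNat (|k * n ^ 3| + 1)
      omega
    rcases lam_cases ((m : ℤ) ^ 3 + k * n ^ 3) with h1 | h1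
    · rcases hδ with hδ | hδ
      · have h2 : m ≤ B := hB ⟨cube_ne' hK, by rw [h1, hδ]⟩
        omega
      · rw [h1, hδ]
        norm_num
    · rcases hδ with hδ | hδ
      · rw [h1, hδ]
      · have h2 : m ≤ B := hB ⟨cube_ne' hK, by rw [h1, hδ]⟩
        omega
  intro δ hδ
  have he0 : (e : ℤ) ≠ 0 := by
    have : (1 : ℤ) ≤ e := by exact_mod_cast he
    linarith
  have hδ' : lam e * δ = 1 ∨ lam e * δ = -1 := by
    rcases lam_cases (e : ℤ) with h1 | h1 <;> rcases hδ with hδ | hδ <;> rw [h1, hδ] <;> norm_num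
  have hinj : Function.Injective (fun m : ℕ => e * m) := fun a b hab =>
    Nat.eq_of_mul_eq_mul_left (by omega) hab
  refine ((base _ hδ').image hinj.injOn).mono ?_
  rintro _ ⟨m, ⟨hm0, hm⟩, rfl⟩
  have e2 : ((e * m : ℕ) : ℤ) ^ 3 + k * (n * e) ^ 3 = (e : ℤ) ^ 3 * ((m : ℤ) ^ 3 + k * n ^ 3) := by
    push_cast
    ring
  refine ⟨?_, ?_⟩
  · show ((e * m : ℕ) : ℤ) ^ 3 + k * (n * e) ^ 3 ≠ 0
    rw [e2]
    exact mul_ne_zero (pow_ne_zero 3 he0) hm0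
  · show lam (((e * m : ℕ) : ℤ) ^ 3 + k * (n * e) ^ 3) = δ
    rw [e2, lam_cube_mul he0 hm0, hm, ← mul_assoc, lam_sq, one_mul]

end Pool.Agent.H49.PC
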