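import Pool.Agent.H12.PAR.Main
import Pool.Agent.H49.PC.Lt

/-!
PC: explicit consequences of `H12.PAR.main`: one parity for `k (k (k + 1) (2 k + 1) N) ^ 3` and both parities for `3456 N ^ 3`.
-/

namespace Pool.Agent.H49.PC

open Pool.Agent.H12.PAR (lam lam_mul lam_cases lam_sq Phi GG)

/-- number of `|m| ≤ X` with `λ(m ^ 3 + K) = δ` -/
noncomputable def cnt (K δ : ℤ) (X : ℕ) : ℕ :=
  {m : ℤ | |m| ≤ X ∧ m ^ 3 + K ≠ 0 ∧ lam (m ^ 3 + K) = δ}.ncard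

theorem cnt_of {b a l : ℤ} (hb : b ≠ 0) (ha : a ≠ 0) (hab : a + 2 * b ≠ 0) (hl : l ≠ 0)
    (hj : ∃ j : ℤ, b * (a + 2 * b) ∣ l * Phi b a j) {K δ : ℤ}
    (hK : K = b * a ^ 2 * (a + b) ^ 3 * l ^ 3) (hδ : δ = lam (b * (a + 2 * b) * l)) :
    ∃ c : ℝ, 0 < c ∧ ∃ X0 : ℕ, ∀ X : ℕ, X0 ≤ X →
      c * (X : ℝ) ^ ((1 : ℝ) / 6) ≤ (cnt K δ X : ℝ) := by
  obtain ⟨j, hj⟩ := hj
  obtain ⟨c, hc, X0, h⟩ := Pool.Agent.H12.PAR.main hb ha hab hl hj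
  refine ⟨c, hc, X0, fun X hX => (h X hX).trans ?_⟩
  have hsub : (((Finset.Icc (-(X : ℤ)) X).filter (fun m : ℤ =>
        m ^ 3 + b * a ^ 2 * (a + b) ^ 3 * l ^ 3 ≠ 0 ∧
        lam (m ^ 3 + b * a ^ 2 * (a + b) ^ 3 * l ^ 3) = lam (b * (a + 2 * b) * l)) : Finset ℤ) : Set ℤ) ⊆
      {m : ℤ | |m| ≤ X ∧ m ^ 3 + K ≠ 0 ∧ lam (m ^ 3 + K) = δ} := by
    intro m hm
    rw [Finset.mem_coe, Finset.mem_filter, Finset.mem_Icc] at hm
    rw [hK, hδ]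
    exact ⟨abs_le.2 hm.1, hm.2.1, hm.2.2⟩
  have hfin : {m : ℤ | |m| ≤ X ∧ m ^ 3 + K ≠ 0 ∧ lam (m ^ 3 + K) = δ}.Finite := by
    refine (Set.finite_Icc (-(X : ℤ)) X).subset ?_
    intro m hm
    exact Set.mem_Icc.2 (abs_le.1 hm.1)
  have h1 := Set.ncard_le_ncard hsub hfin
  rw [Set.ncard_coe_finset] at h1
  exact_mod_cast h1

/-- one parity, every `k` -/
theorem one_parity {k N : ℤ} (hk : k ≠ 0) (hN : N ≠ 0) :
    ∃ c : ℝ, 0 < c ∧ ∃ X0 : ℕ, ∀ X : ℕ, X0 ≤ X →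
      c * (X : ℝ) ^ ((1 : ℝ) / 6) ≤
        (cnt (k * (k * (k + 1) * (2 * k + 1) * N) ^ 3) (lam N) X : ℝ) := by
  have h2 : 2 * k + 1 ≠ 0 := by omega
  have hl : k * (2 * k + 1) * N ≠ 0 := mul_ne_zero (mul_ne_zero hk h2) hN
  refine cnt_of (b := k) (a := 1) (l := k * (2 * k + 1) * N) hk one_ne_zero (by omega) hl
    ⟨0, ⟨N * Phi k 1 0, by ring⟩⟩ (by ring) ?_
  have e : k * (1 + 2 * k) * (k * (2 * k + 1) * N) = (k * (2 * k + 1)) * ((k * (2 * k + 1)) * N) := by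
    ring
  rw [e, lam_mul (mul_ne_zero hk h2) (mul_ne_zero (mul_ne_zero hk h2) hN),
    lam_mul (mul_ne_zero hk h2) hN, ← mul_assoc, lam_sq, one_mul]

theorem lam_four_mul {N : ℤ} (hN : N ≠ 0) : lam (4 * N) = lam N := by
  have e : (4 : ℤ) * N = 2 * (2 * N) := by ring
  rw [e, lam_mul two_ne_zero (mul_ne_zero two_ne_zero hN), lam_mul two_ne_zero hN, ← mul_assoc,
    lam_sq, one_mul]

theorem lam_72_mul {N : ℤ} (hN : N ≠ 0) : lam (72 * N) = -lam N := by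
  have e : (72 : ℤ) * N = 2 * (6 * (6 * N)) := by ring
  have h6 : (6 : ℤ) * N ≠ 0 := mul_ne_zero (by norm_num) hN
  rw [e, lam_mul two_ne_zero (mul_ne_zero (by norm_num) h6), lam_mul (by norm_num) h6,
    lam_mul (by norm_num) hN, ← mul_assoc (lam 6), lam_sq, one_mul, lam_two]
  ring

/-- both parities, `K = 3456 N ^ 3` -/
theorem both_parities {N δ : ℤ} (hN : N ≠ 0) (hδ : δ = 1 ∨ δ = -1) :
    ∃ c : ℝ, 0 < c ∧ ∃ X0 : ℕ, ∀ X : ℕ, X0 ≤ X →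
      c * (X : ℝ) ^ ((1 : ℝ) / 6) ≤ (cnt (3456 * N ^ 3) δ X : ℝ) := by
  have hor : δ = lam N ∨ δ = -lam N := by
    rcases lam_cases N with h | h <;> rcases hδ with h' | h' <;> rw [h, h'] <;> norm_num
  rcases hor with h | h
  · refine cnt_of (b := 1) (a := -4) (l := -2 * N) one_ne_zero (by norm_num) (by norm_num)
      (mul_ne_zero (by norm_num) hN) ⟨0, ⟨N * Phi 1 (-4) 0, by ring⟩⟩ (by ring) ?_
    have e : 1 * (-4 + 2 * 1) * (-2 * N) = 4 * N := by ring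
    rw [e, lam_four_mul hN, h]
  · refine cnt_of (b := 2) (a := -1) (l := 12 * N) two_ne_zero (by norm_num) (by norm_num)
      (mul_ne_zero (by norm_num) hN) ⟨0, ⟨2 * N * Phi 2 (-1) 0, by ring⟩⟩ (by ring) ?_
    have e : 2 * (-1 + 2 * 2) * (12 * N) = 72 * N := by ring
    rw [e, lam_72_mul hN, h]

end Pool.Agent.H49.PC
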