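import Pool.Agent.H49.PC.Lt
import Pool.Agent.H12.PAR.Bound

/-!
PC: the relation `(R)` from the family of `H12/PAR`.

`EC τ k ε` implies `Lt τ ((p ^ 3 + k q ^ 3) (p ^ 3 + 2 k q ^ 3)) = ε τ Lt τ k` for all `p, q ≠ 0` with both factors nonzero:
`a = p ^ 3`, `b = k q ^ 3`, `K = b a ^ 2 (a + b) ^ 3 L ^ 3 = k n ^ 3`, `n = p ^ 2 q (a + b) L > 0`, `L = ± b (a + 2 b)`, `s = - b (a + 2 b) L`.
-/

namespace Pool.Agent.H49.PC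

open Pool.Agent.H12.PAR Filter

theorem five {τ : ℤ} (hτ : τ * τ = 1) {K a b c u v s e : ℤ} (he : e * e = 1) (hs : s ≠ 0)
    (h1 : a + b + c = s) (h2 : a * b + b * c + c * a = s * (u + v)) (h3 : a * b * c + K = s * u * v)
    (ha : a ^ 3 + K ≠ 0) (hb : b ^ 3 + K ≠ 0) (hc : c ^ 3 + K ≠ 0) (hu : u ^ 3 + K ≠ 0)
    (hv : v ^ 3 + K ≠ 0) (ea : Lt τ (a ^ 3 + K) = e) (eb : Lt τ (b ^ 3 + K) = e)
    (ec : Lt τ (c ^ 3 + K) = e) (eu : Lt τ (u ^ 3 + K) = e) (ev : Lt τ (v ^ 3 + K) = e) :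
    Lt τ s = e := by
  have key := congrArg (Lt τ) (norm_identity h1 h2 h3)
  rw [Lt_mul hτ (mul_ne_zero ha hb) hc, Lt_mul hτ ha hb,
    Lt_mul hτ (pow_ne_zero 3 hs) (mul_ne_zero hu hv), Lt_cube hτ hs, Lt_mul hτ hu hv,
    ea, eb, ec, eu, ev, he, one_mul, mul_one] at key
  exact key.symm

/-- all large members of the family have the value `e` -/
theorem fam {τ : ℤ} (hτ : τ * τ = 1) {k T L e : ℤ} (hk : k ≠ 0) (hT : T ≠ 0) (h2 : T + 2 * k ≠ 0)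
    (hL : L ≠ 0) (hdiv : ∀ j, k * (T + 2 * k) ∣ L * Phi k T j) (he : e * e = 1)
    (m0 : ℤ) (hm0 : ∀ m : ℤ, m0 ≤ |m| → Lt τ (m ^ 3 + k * T ^ 2 * (T + k) ^ 3 * L ^ 3) = e) :
    Lt τ (-(k * (T + 2 * k) * L)) = e := by
  obtain ⟨jj, hjj⟩ : ∃ jj : ℕ → ℤ, jj = fun i : ℕ => J0 k T + (i : ℤ) := ⟨_, rfl⟩
  have hj0 : ∀ i, J0 k T ≤ jj i := by
    intro i
    rw [hjj]
    simp
  have hj1 : ∀ i, 0 ≤ jj i := fun i => by
    have := J0_pos k T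
    linarith [hj0 i]
  have hji : ∀ i i', jj i = jj i' → i = i' := by
    intro i i' h
    rw [hjj] at h
    simpa using h
  choose q hq using fun i => hdiv (jj i)
  have hq' : ∀ i, k * (T + 2 * k) * q i = L * Phi k T (jj i) := fun i => (hq i).symm
  obtain ⟨M, hM⟩ : ∃ M : ℤ, M = max m0 (|k * T ^ 2 * (T + k) ^ 3 * L ^ 3| + 1) := ⟨_, rfl⟩
  have Ea := large (f := fun i => aa k T L (jj i)) (fun i i' h =>
    hji i i' (aa_inj hT hL (hj0 i) (hj0 i') h)) M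
  have Eb := large (f := fun i => bb k T L (jj i)) (fun i i' h =>
    hji i i' (bb_inj hT hL (hj0 i) (hj0 i') h)) M
  have Ec := large (f := fun i => cc k T L (jj i)) (fun i i' h =>
    hji i i' (cc_inj hT hL (hj1 i) (hj1 i') h)) M
  have Ev := large (f := fun i => vv k T L (jj i)) (fun i i' h =>
    hji i i' (vv_inj hT hL (hj1 i) (hj1 i') h)) M
  have Eu := large (f := fun i => uu k T L (jj i) (q i)) (fun i i' h =>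
    hji i i' (uu_inj hT hL (hj0 i) (hj0 i') (hq' i) (hq' i') h)) M
  obtain ⟨i, ha, hb, hc, hv, hu⟩ := (Ea.and (Eb.and (Ec.and (Ev.and Eu)))).exists
  have g1 : ∀ x : ℤ, M ≤ |x| → x ^ 3 + k * T ^ 2 * (T + k) ^ 3 * L ^ 3 ≠ 0 := fun x hx =>
    cube_ne (le_trans (by rw [hM]; exact le_max_right _ _) hx)
  have g2 : ∀ x : ℤ, M ≤ |x| → Lt τ (x ^ 3 + k * T ^ 2 * (T + k) ^ 3 * L ^ 3) = e := fun x hx =>
    hm0 x (le_trans (by rw [hM]; exact le_max_left _ _) hx)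
  exact five hτ he (neg_ne_zero.2 (mul_ne_zero (mul_ne_zero hk h2) hL)) (rel1 k T L (jj i))
    (rel2 (hq' i)) (rel3 (hq' i)) (g1 _ ha) (g1 _ hb) (g1 _ hc) (g1 _ hu) (g1 _ hv)
    (g2 _ ha) (g2 _ hb) (g2 _ hc) (g2 _ hu) (g2 _ hv)

/-- the relation `(R)` -/
theorem rel {τ k ε : ℤ} (hτ : τ * τ = 1) (hk : k ≠ 0) (h : EC τ k ε) (p q : ℤ) (hp : p ≠ 0)
    (hq : q ≠ 0) (h1 : p ^ 3 + k * q ^ 3 ≠ 0) (h2 : p ^ 3 + 2 * k * q ^ 3 ≠ 0) :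
    Lt τ (p ^ 3 + k * q ^ 3) * Lt τ (p ^ 3 + 2 * k * q ^ 3) = ε * τ * Lt τ k := by
  have hε := eps_sq hτ h
  have hb : k * q ^ 3 ≠ 0 := mul_ne_zero hk (pow_ne_zero 3 hq)
  have ha : p ^ 3 ≠ 0 := pow_ne_zero 3 hp
  have h2' : p ^ 3 + 2 * (k * q ^ 3) ≠ 0 := by rwa [← mul_assoc]
  have hD : k * q ^ 3 * (p ^ 3 + 2 * (k * q ^ 3)) ≠ 0 := mul_ne_zero hb h2'
  obtain ⟨W, hW⟩ : ∃ W : ℤ, W = p ^ 2 * q * (p ^ 3 + k * q ^ 3) * (k * q ^ 3 * (p ^ 3 + 2 * (k * q ^ 3))) :=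
    ⟨_, rfl⟩
  have hW0 : W ≠ 0 := by
    rw [hW]
    exact mul_ne_zero (mul_ne_zero (mul_ne_zero (pow_ne_zero 2 hp) hq) h1) hD
  -- L = ± D with n > 0
  obtain ⟨σ, hσ, hσW⟩ : ∃ σ : ℤ, (σ = 1 ∨ σ = -1) ∧ 0 < σ * W := by
    rcases lt_or_gt_of_ne hW0 with h' | h'
    · exact ⟨-1, Or.inr rfl, by linarith⟩
    · exact ⟨1, Or.inl rfl, by linarith⟩
  have hσ0 : σ ≠ 0 := by rcases hσ with h' | h' <;> rw [h'] <;> norm_num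
  obtain ⟨L, hL⟩ : ∃ L : ℤ, L = σ * (k * q ^ 3 * (p ^ 3 + 2 * (k * q ^ 3))) := ⟨_, rfl⟩
  have hL0 : L ≠ 0 := by
    rw [hL]
    exact mul_ne_zero hσ0 hD
  obtain ⟨n, hn⟩ : ∃ n : ℤ, n = p ^ 2 * q * (p ^ 3 + k * q ^ 3) * L := ⟨_, rfl⟩
  have hn1 : 1 ≤ n := by
    have e : n = σ * W := by
      rw [hn, hL, hW]
      ring
    rw [e]
    exact hσW
  obtain ⟨m0, hm0⟩ := h n hn1
  have hK : k * q ^ 3 * (p ^ 3) ^ 2 * (p ^ 3 + k * q ^ 3) ^ 3 * L ^ 3 = k * n ^ 3 := by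
    rw [hn]
    ring
  have key := fam hτ (k := k * q ^ 3) (T := p ^ 3) (L := L) (e := ε * lam n) hb ha h2' hL0 (by
      intro j
      rw [hL]
      exact ⟨σ * Phi (k * q ^ 3) (p ^ 3) j, by ring⟩) (by
      calc ε * lam n * (ε * lam n) = (ε * ε) * (lam n * lam n) := by ring
        _ = 1 := by rw [hε, lam_sq, one_mul]) m0 (by
      intro m hm
      rw [hK]
      exact hm0 m hm)
  have e1 : Lt τ n = lam n := Lt_nonneg (by linarith)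
  have hn0 : n ≠ 0 := by linarith
  have hs0 : -(k * q ^ 3 * (p ^ 3 + 2 * (k * q ^ 3)) * L) ≠ 0 :=
    neg_ne_zero.2 (mul_ne_zero hD hL0)
  have e2 : Lt τ (-(k * q ^ 3 * (p ^ 3 + 2 * (k * q ^ 3)) * L) * n) = ε := by
    rw [Lt_mul hτ hs0 hn0, key, e1, mul_assoc, lam_sq, mul_one]
  have e3 : -(k * q ^ 3 * (p ^ 3 + 2 * (k * q ^ 3)) * L) * n =
      -(k * ((p ^ 3 + k * q ^ 3) * (p ^ 3 + 2 * k * q ^ 3))) * (p * q ^ 2 * L) ^ 2 := by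
    rw [hn]
    ring
  have h12 : (p ^ 3 + k * q ^ 3) * (p ^ 3 + 2 * k * q ^ 3) ≠ 0 := mul_ne_zero h1 h2
  rw [e3, Lt_sq_mul hτ (neg_ne_zero.2 (mul_ne_zero hk h12))
    (mul_ne_zero (mul_ne_zero hp (pow_ne_zero 2 hq)) hL0), Lt_neg hτ (mul_ne_zero hk h12),
    Lt_mul hτ hk h12, Lt_mul hτ h1 h2] at e2
  have e4 := Lt_sq hτ k
  calc Lt τ (p ^ 3 + k * q ^ 3) * Lt τ (p ^ 3 + 2 * k * q ^ 3) =
        (τ * τ) * (Lt τ k * Lt τ k) * (Lt τ (p ^ 3 + k * q ^ 3) * Lt τ (p ^ 3 + 2 * k * q ^ 3)) := by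
        rw [hτ, e4, one_mul, one_mul]
    _ = (τ * (Lt τ k * (Lt τ (p ^ 3 + k * q ^ 3) * Lt τ (p ^ 3 + 2 * k * q ^ 3)))) * (τ * Lt τ k) := by
        ring
    _ = ε * τ * Lt τ k := by rw [e2]; ring

end Pool.Agent.H49.PC
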